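import Pool.Agent.H951R3.W.W3
import Pool.Agent.H951R3.V.V5

set_option autoImplicit false

/-!
Vojta's inequality on `ℙ^N` over `ℚ` with respect to an arbitrary hypersurface: the rational points
at which it fails form a sparse set.
-/

namespace Pool.Agent.Results.MP_17a322_nt.HypersurfacesSparse

open Pool.Agent.H951R3

/-- `x` is a primitive integer vector; every rational point of `ℙ^N` is represented by exactly two
of them, `x` and `-x` -/
def IsPrimitive {N : ℕ} (x : Fin (N + 1) → ℤ) : Prop :=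
  Finset.univ.gcd x = 1

/-- `max |x_i|`, the multiplicative height of the point given by a primitive `x` -/
def height {N : ℕ} (x : Fin (N + 1) → ℤ) : ℕ :=
  Finset.univ.sup (fun i => (x i).natAbs)

/-- The proximity function `m_{S,D}(x)` of the hypersurface `D : F = 0` of degree `d`, for the
places `∞` and `p ∈ S`, at a primitive `x` with `F x ≠ 0`: the local height at `∞` is
`log (max |x_i| ^ d / |F x|)`, the local height at `p` is `log (1 / |F x|_p)`. -/
noncomputable def proximity {N : ℕ} (F : MvPolynomial (Fin (N + 1)) ℤ) (d : ℕ) (S : Finset ℕ)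
    (x : Fin (N + 1) → ℤ) : ℝ :=
  Real.log ((height x : ℝ) ^ d / |((MvPolynomial.eval x F : ℤ) : ℝ)|) +
    ∑ p ∈ S, (padicValInt p (MvPolynomial.eval x F) : ℝ) * Real.log p

/-- **Main theorem.** -/
theorem result (N : ℕ) (F : MvPolynomial (Fin (N + 1)) ℤ) (hF0 : F ≠ 0) (d : ℕ) (hd : 1 ≤ d)
    (hF : F.IsHomogeneous d) (S : Finset ℕ) (hS : ∀ p ∈ S, p.Prime) (κ c δ : ℝ) (hδ : 0 < δ) :
    ∃ C : ℝ, 0 < C ∧ ∀ B : ℝ, 1 ≤ B →
      {x : Fin (N + 1) → ℤ | IsPrimitive x ∧ (height x : ℝ) ≤ B ∧ MvPolynomial.eval x F ≠ 0 ∧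
        κ * Real.log (height x) + c ≤ proximity F d S x}.Finite ∧
      ({x : Fin (N + 1) → ℤ | IsPrimitive x ∧ (height x : ℝ) ≤ B ∧ MvPolynomial.eval x F ≠ 0 ∧
        κ * Real.log (height x) + c ≤ proximity F d S x}.ncard : ℝ) ≤
          C * B ^ ((N : ℝ) + max (1 - κ / d) 0 + δ) := by
  have hdR : (0 : ℝ) < d := by exact_mod_cast hd
  obtain ⟨C, hC, hmain⟩ := W.main F hF0 hd hF S hS (K0 := Real.exp (-c)) (τ := max (d - κ) 0)
    (Real.exp_pos _) (le_max_right _ _) hδ
  refine ⟨C, hC, fun B hB => ?_⟩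
  have hB0 : 0 < B := by linarith
  have hτ : max ((d : ℝ) - κ) 0 / d = max (1 - κ / d) 0 := by
    rw [← max_div_div_right hdR.le, sub_div, div_self hdR.ne', zero_div]
  rw [← hτ]
  refine V.ncard_le_of_finset _ _ (by positivity) fun X hX => ?_
  refine hmain B hB X fun x hx => ?_
  obtain ⟨hprim, hht, hne, hprox⟩ := hX hx
  -- the height
  have hxi : ∀ i, |(x i : ℝ)| ≤ height x := by
    intro i
    have : (x i).natAbs ≤ height x :=
      Finset.le_sup (f := fun i => (x i).natAbs) (Finset.mem_univ i)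
    have h2 : (((x i).natAbs : ℕ) : ℝ) ≤ (height x : ℝ) := by exact_mod_cast this
    rw [Nat.cast_natAbs] at h2
    push_cast at h2
    exact h2
  have hH1 : (1 : ℝ) ≤ height x := by
    have h1 : height x ≠ 0 := by
      intro h0
      have h2 : x = 0 := by
        funext i
        have h3 := hxi i
        rw [h0, Nat.cast_zero] at h3
        have h4 : (x i : ℝ) = 0 := abs_eq_zero.mp (le_antisymm h3 (abs_nonneg _))
        exact_mod_cast h4
      rw [h2] at hprim
      unfold IsPrimitive at hprim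
      have h5 : Finset.univ.gcd (0 : Fin (N + 1) → ℤ) = 0 := by
        rw [Finset.gcd_eq_zero_iff]
        intro i _
        rfl
      rw [h5] at hprim
      exact zero_ne_one hprim
    exact_mod_cast Nat.one_le_iff_ne_zero.mpr h1
  have hH0 : (0 : ℝ) < height x := by linarith
  refine ⟨fun i => (hxi i).trans hht, hne, ?_⟩
  set n : ℤ := MvPolynomial.eval x F with hn
  have hnR : (0 : ℝ) < |(n : ℝ)| := abs_pos.mpr (by exact_mod_cast hne)
  have hpos : ∀ p ∈ S, (0 : ℝ) < (padicNorm p (n : ℚ) : ℝ) := fun p hp =>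
    W.padicNorm_pos' p (hS p hp) (by exact_mod_cast hne)
  have hprod : (0 : ℝ) < ∏ p ∈ S, (padicNorm p (n : ℚ) : ℝ) := Finset.prod_pos hpos
  have hval : ∀ p ∈ S, Real.log (padicNorm p (n : ℚ) : ℝ) =
      -((padicValInt p n : ℝ) * Real.log p) := by
    intro p hp
    have : Fact p.Prime := ⟨hS p hp⟩
    have hnq : (n : ℚ) ≠ 0 := by exact_mod_cast hne
    rw [padicNorm.eq_zpow_of_nonzero hnq, padicValRat.of_int]
    push_cast
    rw [zpow_neg, zpow_natCast, Real.log_inv, Real.log_pow]
  have hlog : Real.log (|(n : ℝ)| * ∏ p ∈ S, (padicNorm p (n : ℚ) : ℝ)) =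
      d * Real.log (height x) - proximity F d S x := by
    rw [Real.log_mul hnR.ne' hprod.ne', Real.log_prod (fun p hp => (hpos p hp).ne'),
      Finset.sum_congr rfl hval, Finset.sum_neg_distrib]
    unfold proximity
    rw [← hn, Real.log_div (by positivity) hnR.ne', Real.log_pow]
    ring
  have hle : Real.log (|(n : ℝ)| * ∏ p ∈ S, (padicNorm p (n : ℚ) : ℝ)) ≤
      -c + max ((d : ℝ) - κ) 0 * Real.log B := by
    rw [hlog]
    have h1 : ((d : ℝ) - κ) * Real.log (height x) ≤ max ((d : ℝ) - κ) 0 * Real.log B := by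
      have h2 : 0 ≤ Real.log (height x) := Real.log_nonneg hH1
      have h3 : Real.log (height x) ≤ Real.log B := Real.log_le_log hH0 hht
      calc ((d : ℝ) - κ) * Real.log (height x) ≤ max ((d : ℝ) - κ) 0 * Real.log (height x) :=
            mul_le_mul_of_nonneg_right (le_max_left _ _) h2
        _ ≤ _ := mul_le_mul_of_nonneg_left h3 (le_max_right _ _)
    linarith
  have h4 := (Real.log_le_iff_le_exp (by positivity)).mp hle
  refine h4.trans (le_of_eq ?_)
  rw [Real.exp_add, Real.rpow_def_of_pos hB0, mul_comm (Real.log B)]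

end Pool.Agent.Results.MP_17a322_nt.HypersurfacesSparse
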