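import Mathlib
import Pool.Agent.H533R3.SL.GmX

/-!
# Vojta's inequality for sparse integral points

Let `X` be an integral projective variety over a number field `k`, `D` the hyperplane section
`x₀ = 0` and `U = X \ D`, and assume that `U` is not covered by punctured lines (for example that
`K_X + D` is big).  Then for every `r` there is a proper closed subset `Z` of `X` such that
all integral points of `U` off `Z`, over all finite extensions `K` of `k` and with respect to all
sets of primes dividing a number `b`, which are sums of `r` terms `b ^ m • v` with `v` integral of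
house at most `B`, have bounded height: the bound is explicit and uniform in `K` and `b`.
-/

namespace Pool.Agent.Results.MP_17a322_nt.SparseIntegralPoints

open NumberField Pool.Agent.H458.Sp Pool.Agent.H533R3.SL

/-- the explicit bound for the house of the coordinates -/
noncomputable def bound (d : ℕ) (A : ℝ) (r : ℕ) (B : ℝ) : ℝ :=
  Real.exp ((8 * d * (6 + 8 * d + 4 * Real.log A)) ^ (r + 1) *
    (1 + Real.log B + Real.log (A * ((r + 1 : ℕ) * B) ^ d)))

/-- Let the integral projective variety `X` over `k` be given by the finite set `FF` of homogeneous
forms with coefficients in `𝓞 k`, degrees at most `d` and coefficients of total house at most `A`,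
and let the affine part `x₀ ≠ 0` of `X` be not covered by punctured lines.  Then for every `r`
there is a form `G` over `k` which does not vanish identically on `X`, such that for all `B ≥ 1` and
all finite extensions `K` of `k` the set of the points of the affine part over `K` with `G ≠ 0`
which are `r`-sparse in some base `b ≥ 2`, with digits of house at most `B`, is finite, and all of
its elements have a common denominator and numerators in `𝓞 K` of house at most
`bound d A r B`. -/
theorem result (k : Type) [Field k] [NumberField k] (n : ℕ)
    (FF : Finset (MvPolynomial (Fin (n + 1)) (𝓞 k))) (d : ℕ) (hd : 1 ≤ d) (A : ℝ) (hA : 1 ≤ A)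
    (hFF : ∀ F ∈ FF, (∃ e, e ≤ d ∧ F.IsHomogeneous e) ∧ nrm F ≤ A)
    (hprime : (idealK FF).IsPrime) (hnu : ¬ GmUniruled (idealK FF)) (r : ℕ) :
    ∃ G : MvPolynomial (Fin (n + 1)) k, (∃ e, G.IsHomogeneous e) ∧ G ∉ idealK FF ∧
      ∀ B : ℝ, 1 ≤ B → ∀ (K : Type) [Field K] [NumberField K] [Algebra k K],
        {x ∈ affPoints FF r B K |
          MvPolynomial.aeval (Fin.cons 1 x : Fin (n + 1) → K) G ≠ 0}.Finite ∧
        {x ∈ affPoints FF r B K |
          MvPolynomial.aeval (Fin.cons 1 x : Fin (n + 1) → K) G ≠ 0} ⊆
            smallAff K n (bound d A r B) := by
  obtain ⟨G, h1, h2, h3⟩ := gm_strong k n FF d hd A hA hFF hprime hnu r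
  refine ⟨G, h1, h2, fun B hB K _ _ _ => ?_⟩
  have h := h3 B hB K
  exact ⟨(smallAff_finite K n _).subset h, h⟩

end Pool.Agent.Results.MP_17a322_nt.SparseIntegralPoints
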