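import Mathlib
import Pool.Agent.H691R3.UStd

set_option autoImplicit false

namespace Pool.Agent.Results.MP_17a322_nt.SparseOnProduct

open NumberField IsDedekindDomain Polynomial

/-- the logarithmic height, relative to `K`, of the point `[x : 1]` -/
noncomputable def height {K : Type} [Field K] [NumberField K] (x : K) : ℝ :=
  ∑ w : InfinitePlace K, (w.mult : ℝ) * Real.log (max (w x) (w 1)) +
    ∑ᶠ v : HeightOneSpectrum (RingOfIntegers K),
      Real.log (max (FinitePlace.mk v x) (FinitePlace.mk v 1))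

/-- degree of the rational function `P / Q` -/
def deg {K : Type} [Field K] (P Q : K[X]) : ℕ := max P.natDegree Q.natDegree

/-- the value at `([x : 1], [y : 1])` of the equation of the divisor `D`, the union of the
fibres `x = γ i`, `i ∈ A`, of the first projection and of the graphs `y = P k (x) / Q k (x)` -/
def equation {K : Type} [Field K] {g t : ℕ} (γ : Fin g → K × K) (A : Finset (Fin g))
    (P Q : Fin t → K[X]) (x y : K) : K :=
  (∏ i ∈ A, (x * (γ i).2 - 1 * (γ i).1)) *
    ∏ k, (y * (Q k).eval x - 1 * (P k).eval x)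

/-- the proximity function of `D` (relative to `K`) for the set `S` of places: the sum over
the infinite places in `S1` and the primes in `S2` of the local heights
`-log (|F(s, t)| / (|s| ^ a * |t| ^ b))`, where `(a, b)` is the bidegree of `D` and `F` its
equation -/
noncomputable def proximity {K : Type} [Field K] [NumberField K]
    (S1 : Finset (InfinitePlace K)) (S2 : Finset (HeightOneSpectrum (RingOfIntegers K)))
    {g t : ℕ} (γ : Fin g → K × K) (A : Finset (Fin g)) (P Q : Fin t → K[X]) (x y : K) : ℝ :=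
  ∑ w ∈ S1, (w.mult : ℝ) * (-Real.log (w (equation γ A P Q x y) /
      (max (w x) (w 1) ^ (A.card + ∑ k, deg (P k) (Q k)) * max (w y) (w 1) ^ t))) +
    ∑ v ∈ S2, -Real.log (FinitePlace.mk v (equation γ A P Q x y) /
      (max (FinitePlace.mk v x) (FinitePlace.mk v 1) ^ (A.card + ∑ k, deg (P k) (Q k)) *
        max (FinitePlace.mk v y) (FinitePlace.mk v 1) ^ t))

/-- Let `K` be a number field, `S = S1 ∪ S2` a finite set of places and `D` the divisor on the
product of two lines which is the union of the fibres `x = γ i` (`i ∈ A`) and of the graphs of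
`t ≥ 1` rational functions `P k / Q k` over `K` (constants allowed). Suppose that `D` has normal
crossings and that all crossing points are rational: the two graphs `k ≠ l` meet over the
`deg k + deg l` different points `γ i`, `i ∈ S k l`, and there are no triple points.
Let `0 ≤ κ ≤ 2`, `c` real and `δ > 0`. Then, for `B ≥ 1`, the number of `(x, y)` in `K ^ 2`
off `D` with coordinates of height at most `log B` and
`κ (h(x) + h(y)) - c ≤ m_S(D, (x, y))` is `O(B ^ (max (2 (2 - κ)) 2 + δ))`. -/
theorem result :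
    ∀ (K : Type) [Field K] [NumberField K]
      (S1 : Finset (InfinitePlace K)) (S2 : Finset (HeightOneSpectrum (RingOfIntegers K)))
      (g t : ℕ), 1 ≤ g → 1 ≤ t →
      ∀ (γ : Fin g → K × K), (∀ i, γ i ≠ 0) →
        (∀ i j, i ≠ j → (γ i).1 * (γ j).2 - (γ i).2 * (γ j).1 ≠ 0) →
      ∀ (A : Finset (Fin g)) (P Q : Fin t → K[X]), (∀ k, IsCoprime (P k) (Q k)) →
      ∀ (S : Fin t → Fin t → Finset (Fin g)) (u : Fin t → Fin t → K),
        (∀ k l, k ≠ l → u k l ≠ 0 ∧ (S k l).card = deg (P k) (Q k) + deg (P l) (Q l) ∧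
          ∀ x : K, (P k).eval x * (Q l).eval x - (Q k).eval x * (P l).eval x =
            u k l * ∏ i ∈ S k l, (x * (γ i).2 - 1 * (γ i).1)) →
        (∀ k l, k ≠ l → Disjoint A (S k l)) →
        (∀ k l m, k ≠ l → k ≠ m → l ≠ m → Disjoint (S k m) (S l m)) →
      ∀ κ c δ : ℝ, 0 ≤ κ → κ ≤ 2 → 0 < δ →
        ∃ C : ℝ, ∀ B : ℝ, 1 ≤ B →
          {z : K × K | equation γ A P Q z.1 z.2 ≠ 0 ∧
            height z.1 ≤ Real.log B ∧ height z.2 ≤ Real.log B ∧
            κ * (height z.1 + height z.2) - c ≤ proximity S1 S2 γ A P Q z.1 z.2}.Finite ∧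
          ({z : K × K | equation γ A P Q z.1 z.2 ≠ 0 ∧
            height z.1 ≤ Real.log B ∧ height z.2 ≤ Real.log B ∧
            κ * (height z.1 + height z.2) - c ≤
              proximity S1 S2 γ A P Q z.1 z.2}.ncard : ℝ) ≤
            C * B ^ (max (2 * (2 - κ)) 2 + δ) := by
  intro K _ _ S1 S2 g t hg ht γ hγ0 hγ A P Q hPQ S u hS hAS hSS κ c δ hκ0 hκ2 hδ
  classical
  have hheight : ∀ x : K, height x = Pool.Agent.H691R3.hr (Pool.Agent.H691R3.aff x) :=
    fun x => rfl
  have hprox : ∀ x y : K, proximity S1 S2 γ A P Q x y =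
      ∑ v ∈ S1.disjSum S2, Pool.Agent.H691R3.lamW v
        (A.card + ∑ k, max (P k).natDegree (Q k).natDegree) t
        (Pool.Agent.H691R3.Geq γ A P Q x y) x y := by
    intro x y
    rw [Finset.sum_disjSum]
    unfold proximity
    congr 1
    refine Finset.sum_congr rfl fun v _ => ?_
    exact (one_mul _).symm
  obtain ⟨C, hC, hmain⟩ := Pool.Agent.H691R3.graphs_count hg ht (S1.disjSum S2) γ hγ0 hγ A P Q
    hPQ S u hS hAS hSS κ hκ0 hκ2 c δ hδ
  refine ⟨C, fun B hB => ?_⟩
  set V : Set (K × K) := {z : K × K | equation γ A P Q z.1 z.2 ≠ 0 ∧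
    height z.1 ≤ Real.log B ∧ height z.2 ≤ Real.log B ∧
    κ * (height z.1 + height z.2) - c ≤ proximity S1 S2 γ A P Q z.1 z.2} with hV
  have hB0 : 0 < B := by linarith
  have hlogB : 0 ≤ Real.log B := Real.log_nonneg hB
  have hbound : ∀ E : Finset (K × K), (E : Set (K × K)) ⊆ V →
      (E.card : ℝ) ≤ C * B ^ (max (2 * (2 - κ)) 2 + δ) := by
    intro E hE
    have h1 := hmain (Real.log B) hlogB E ?_
    · refine h1.trans (le_of_eq ?_)
      rw [Real.rpow_def_of_pos hB0, mul_comm (Real.log B)]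
    · intro z hz
      have hzV := hE hz
      rw [hV, Set.mem_ofPred_eq] at hzV
      obtain ⟨h2, h3, h4, h5⟩ := hzV
      rw [hprox] at h5
      exact ⟨h2, h5, h3, h4⟩
  have hnn : 0 ≤ C * B ^ (max (2 * (2 - κ)) 2 + δ) := by positivity
  have hfin : V.Finite := by
    by_contra hinf
    obtain ⟨E, hEV, hEc⟩ := Set.Infinite.exists_subset_card_eq hinf
      (⌊C * B ^ (max (2 * (2 - κ)) 2 + δ)⌋₊ + 1)
    have h1 := hbound E hEV
    have h2 := Nat.lt_floor_add_one (C * B ^ (max (2 * (2 - κ)) 2 + δ))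
    rw [hEc] at h1
    push_cast at h1
    linarith
  refine ⟨hfin, ?_⟩
  rw [Set.ncard_eq_toFinset_card V hfin]
  exact hbound hfin.toFinset (by rw [Set.Finite.coe_toFinset])

end Pool.Agent.Results.MP_17a322_nt.SparseOnProduct
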